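import Pool.Agent.helper62.DP8.Spec

set_option autoImplicit false

namespace Pool.Agent.helper62.DP8

theorem CLN_mod (g a b : ℕ) (h : a < b) (h2 : b < a + g) : a % g ≠ b % g := by
  intro h3
  have h4 : g ∣ b - a := (Nat.modEq_iff_dvd' h.le).1 h3
  have h5 : g ≤ b - a := Nat.le_of_dvd (by omega) h4
  omega

theorem CLN_beq (a b : ℕ) : Nat.beq a b = true ↔ a = b := by
  constructor
  · intro h
    exact Nat.eq_of_beq_eq_true h
  · intro h
    subst h
    exact Nat.beq_refl a

theorem CLN_data (hORS : ORS_stmt) (g : ℕ) (s : St) (t : Tb) (h : isClean g s t = true) :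
    s.n = 2 * g ∧ 5 ≤ g ∧ (∀ i < g, tb (ent t.R i) ((i + 1) % g) = true ∧ tb (ent t.R i) (g + i) = true) ∧
    (∀ i < g, ∀ j < g, i = j ∨ (tb (ent t.M (g + i)) (g + j) = false ∧ (i = (j + 1) % g ∨ j = (i + 1) % g ∨
      (tb (ent t.M (g + i)) j = false ∧ (i = (j + 2) % g ∨ j = (i + 2) % g ∨ tb (ent t.M i) j = false))))) := by
  have hN := hORS.2.2.2.2.1
  unfold isClean at h
  simp only [Bool.and_eq_true] at h
  obtain ⟨⟨⟨h1, h2⟩, h3⟩, h4⟩ := h
  refine ⟨(CLN_beq _ _).1 h1, Nat.le_of_ble_eq_true h2, ?_, ?_⟩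
  · intro i hi
    have := (hN _ g).1 h3 i hi
    simpa only [Bool.and_eq_true] using this
  · intro i hi j hj
    have h5 := (hN _ g).1 ((hN _ g).1 h4 i hi) j hj
    simp only [Bool.or_eq_true, Bool.and_eq_true, Bool.not_eq_true', CLN_beq] at h5
    rcases h5 with h5 | ⟨h6, h7⟩
    · exact Or.inl h5
    · right
      refine ⟨h6, ?_⟩
      rcases h7 with (h7 | h7) | ⟨h8, h9⟩
      · exact Or.inl h7
      · exact Or.inr (Or.inl h7)
      · right; right
        refine ⟨h8, ?_⟩
        rcases h9 with (h9 | h9) | h9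
        · exact Or.inl h9
        · exact Or.inr (Or.inl h9)
        · exact Or.inr (Or.inr h9)

theorem CLN (hBIT : BIT_stmt) (hORS : ORS_stmt) (hTRR : TRR_stmt) (hSMM : SMM_stmt) (hABH : ABH_stmt) (hEXT : EXT_stmt)
    (hDG9 : DG9_stmt) (hGOA : GOA_stmt) : CLN_stmt := by
  classical
  have _ := hBIT
  intro V _ G g s v hg3 hconn hcub hgir hreal hclean
  obtain ⟨hn, hg5, hR, hM⟩ := CLN_data hORS g s (tbl g s) hclean
  have hg0 : 0 < g := by omega
  have hlt : ∀ i, i % g < g := fun i => Nat.mod_lt i hg0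
  have hmod : ∀ i c, (i % g + c) % g = (i + c) % g := fun i c => Nat.mod_add_mod i g c
  have hinj := hreal.inj
  set u : ℕ → V := fun i => v (i % g) with hu
  set p : ℕ → V := fun i => v (g + i % g) with hp
  have hAu : ∀ i, G.Adj (u i) (u (i + 1)) := by
    intro i
    have h1 := ((hTRR V G g s v hreal).2 _ _ (hR (i % g) (hlt i)).1).2.2.2.1
    rw [hmod] at h1
    exact h1
  have hAp : ∀ i, G.Adj (u i) (p i) := by
    intro i
    exact ((hTRR V G g s v hreal).2 _ _ (hR (i % g) (hlt i)).2).2.2.2.1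
  have hune : ∀ a b, a < b → b < a + g → u a ≠ u b := by
    intro a b h1 h2 h3
    have h4 := hinj (a % g) (by have := hlt a; omega) (b % g) (by have := hlt b; omega) h3
    exact CLN_mod g a b h1 h2 h4
  have hupne : ∀ a b, u a ≠ p b := by
    intro a b h3
    have h4 := hinj (a % g) (by have := hlt a; omega) (g + b % g) (by have := hlt b; omega) h3
    have := hlt a
    omega
  have hpos : ∀ i, (sq G).Adj (u i) (u (i + 1)) ∧ (sq G).Adj (u i) (u (i + 2)) ∧ (sq G).Adj (p (i + 1)) (u i) ∧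
      (sq G).Adj (p (i + 1)) (u (i + 1)) ∧ (sq G).Adj (p (i + 1)) (u (i + 2)) := by
    intro i
    refine ⟨⟨hune _ _ (by omega) (by omega), Or.inl (hAu i)⟩,
      ⟨hune _ _ (by omega) (by omega), Or.inr ⟨u (i + 1), hAu i, hAu (i + 1)⟩⟩,
      ⟨(hupne _ _).symm, Or.inr ⟨u (i + 1), (hAp (i + 1)).symm, (hAu i).symm⟩⟩,
      ⟨(hupne _ _).symm, Or.inl (hAp (i + 1)).symm⟩,
      ⟨(hupne _ _).symm, Or.inr ⟨u (i + 1), (hAp (i + 1)).symm, hAu (i + 1)⟩⟩⟩
  have hS := hSMM V G g s v hg3 hcub hgir hreal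
  have hneg1 : ∀ i k, 3 ≤ k → k + 3 ≤ g → ¬ (sq G).Adj (u i) (u (i + k)) := by
    intro i k hk1 hk2 hadj
    have h1 := hS (i % g) ((i + k) % g) (by have := hlt i; omega) (by have := hlt (i + k); omega) hadj
    rcases hM (i % g) (hlt i) ((i + k) % g) (hlt (i + k)) with h2 | ⟨_, h2 | h2 | ⟨_, h2 | h2 | h2⟩⟩
    · exact CLN_mod g i (i + k) (by omega) (by omega) h2
    · rw [hmod] at h2
      exact CLN_mod g i (i + k + 1) (by omega) (by omega) h2
    · rw [hmod] at h2
      exact CLN_mod g (i + 1) (i + k) (by omega) (by omega) h2.symm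
    · rw [hmod] at h2
      exact CLN_mod g i (i + k + 2) (by omega) (by omega) h2
    · rw [hmod] at h2
      exact CLN_mod g (i + 2) (i + k) (by omega) (by omega) h2.symm
    · rw [h1] at h2
      exact Bool.noConfusion h2
  have hneg2 : ∀ i k, 2 ≤ k → k + 2 ≤ g → ¬ (sq G).Adj (p i) (u (i + k)) := by
    intro i k hk1 hk2 hadj
    have h1 := hS (g + i % g) ((i + k) % g) (by have := hlt i; omega) (by have := hlt (i + k); omega) hadj
    rcases hM (i % g) (hlt i) ((i + k) % g) (hlt (i + k)) with h2 | ⟨_, h2 | h2 | ⟨h2, _⟩⟩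
    · exact CLN_mod g i (i + k) (by omega) (by omega) h2
    · rw [hmod] at h2
      exact CLN_mod g i (i + k + 1) (by omega) (by omega) h2
    · rw [hmod] at h2
      exact CLN_mod g (i + 1) (i + k) (by omega) (by omega) h2.symm
    · rw [h1] at h2
      exact Bool.noConfusion h2
  have hneg3 : ∀ i j, ¬ (sq G).Adj (p i) (p j) := by
    intro i j hadj
    have h1 := hS (g + i % g) (g + j % g) (by have := hlt i; omega) (by have := hlt j; omega) hadj
    rcases hM (i % g) (hlt i) (j % g) (hlt j) with h2 | ⟨h2, _⟩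
    · have h3 : p i = p j := by
        show v (g + i % g) = v (g + j % g)
        rw [h2]
      exact hadj.1 h3
    · rw [h1] at h2
      exact Bool.noConfusion h2
  have hPc := hABH V (sq G) g u p hg5 (fun i => by show v ((i + g) % g) = v (i % g); rw [Nat.add_mod_right])
    (fun i => by show v (g + (i + g) % g) = v (g + i % g); rw [Nat.add_mod_right])
    (fun i hi j hj hij => by
      have h4 := hinj (i % g) (by have := hlt i; omega) (j % g) (by have := hlt j; omega) hij
      rwa [Nat.mod_eq_of_lt hi, Nat.mod_eq_of_lt hj] at h4)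
    (fun i hi j hj hij => by
      have h4 := hinj (g + i % g) (by have := hlt i; omega) (g + j % g) (by have := hlt j; omega) hij
      rw [Nat.mod_eq_of_lt hi, Nat.mod_eq_of_lt hj] at h4
      omega)
    hupne hpos hneg1 hneg2 hneg3
  have hU : ∀ i, i < g → u i ∈ (Finset.range g).image u ∪ (Finset.range g).image p := fun i hi =>
    Finset.mem_union_left _ (Finset.mem_image_of_mem _ (Finset.mem_range.2 hi))
  have hP : ∀ i, i < g → p i ∈ (Finset.range g).image u ∪ (Finset.range g).image p := fun i hi =>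
    Finset.mem_union_right _ (Finset.mem_image_of_mem _ (Finset.mem_range.2 hi))
  have hext := hEXT V G hconn ((Finset.range g).image u ∪ (Finset.range g).image p) ⟨u 0, hU 0 hg0⟩
    (by
      intro x hx
      rcases Finset.mem_union.1 hx with hx | hx
      · obtain ⟨i, hi, rfl⟩ := Finset.mem_image.1 hx
        exact ⟨p i, hP i (Finset.mem_range.1 hi), hAp i⟩
      · obtain ⟨i, hi, rfl⟩ := Finset.mem_image.1 hx
        exact ⟨u i, hU i (Finset.mem_range.1 hi), (hAp i).symm⟩)
    (fun _ => 0) hPc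
  exact hGOA V G (fun _ => 0) (fun x => hDG9 V G (fun y => (hcub y).le) x) hext

end Pool.Agent.helper62.DP8
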